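import Pool.Agent.H61.HB.Stmts4

/-!
Board fnd (MP_91403e_an), row WNB: the Wiener norm of the approximate solution.
-/

set_option autoImplicit false

namespace HB

private lemma wnb_sq_nonneg (k : Z2) : 0 ≤ sq k := by
  unfold sq
  positivity

private lemma wnb_tri (a c : Z2) : √(sq (a + c)) ≤ √(sq a) + √(sq c) := by
  have ha := wnb_sq_nonneg a
  have hc := wnb_sq_nonneg c
  apply Real.sqrt_le_iff.mpr
  refine ⟨by positivity, ?_⟩
  have h1 : (a.1 : ℝ) * c.1 + (a.2 : ℝ) * c.2 ≤ √(sq a) * √(sq c) := by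
    rw [← Real.sqrt_mul ha]
    apply Real.le_sqrt_of_sq_le
    unfold sq
    nlinarith [sq_nonneg ((a.1 : ℝ) * c.2 - (a.2 : ℝ) * c.1)]
  have h2 : sq (a + c) = sq a + sq c + 2 * ((a.1 : ℝ) * c.1 + (a.2 : ℝ) * c.2) := by
    unfold sq
    simp only [Prod.fst_add, Prod.snd_add, Int.cast_add]
    ring
  rw [h2]
  have h3 := Real.sq_sqrt ha
  have h4 := Real.sq_sqrt hc
  nlinarith

private lemma wnb_one (h1 : FSBStmt) (M : ℝ) (hM : 0 ≤ M) (c : Z2) (g : V) (hg : Fs M g)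
    (j : Fin 2) :
    Summable (fun k => (1 + √(sq k)) * ‖sh c g j k‖) ∧
      ∑' k, (1 + √(sq k)) * ‖sh c g j k‖ ≤ (1 + √(sq c) + M) * ∑' a, ‖g j a‖ := by
  have hfin := h1.1 M
  have hz : ∀ a : Z2, a ∉ hfin.toFinset → g j a = 0 := by
    intro a ha
    apply hg
    by_contra hlt
    apply ha
    rw [Set.Finite.mem_toFinset]
    exact not_lt.mp hlt
  have hsum1 : Summable (fun a : Z2 => ‖g j a‖) := by
    apply summable_of_ne_finset_zero (s := hfin.toFinset)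
    intro a ha
    rw [hz a ha, norm_zero]
  have hsum2 : Summable (fun a : Z2 => (1 + √(sq (a + c))) * ‖g j a‖) := by
    apply summable_of_ne_finset_zero (s := hfin.toFinset)
    intro a ha
    rw [hz a ha, norm_zero, mul_zero]
  have hcomp : (fun k : Z2 => (1 + √(sq k)) * ‖sh c g j k‖) ∘ (Equiv.addRight c) =
      fun a : Z2 => (1 + √(sq (a + c))) * ‖g j a‖ := by
    funext a
    simp [sh]
  have hs : Summable (fun k : Z2 => (1 + √(sq k)) * ‖sh c g j k‖) := by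
    rw [← (Equiv.addRight c).summable_iff, hcomp]
    exact hsum2
  refine ⟨hs, ?_⟩
  have ht : ∑' k, (1 + √(sq k)) * ‖sh c g j k‖ = ∑' a : Z2, (1 + √(sq (a + c))) * ‖g j a‖ := by
    rw [← (Equiv.addRight c).tsum_eq (fun k : Z2 => (1 + √(sq k)) * ‖sh c g j k‖)]
    apply tsum_congr
    intro a
    exact congrFun hcomp a
  rw [ht, ← tsum_mul_left]
  apply hsum2.tsum_le_tsum _ (hsum1.mul_left _)
  intro a
  by_cases hlt : M ^ 2 < sq a
  · rw [hg j a hlt, norm_zero, mul_zero, mul_zero]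
  · apply mul_le_mul_of_nonneg_right _ (norm_nonneg _)
    have h5 : √(sq a) ≤ M := by
      apply Real.sqrt_le_iff.mpr
      exact ⟨hM, not_lt.mp hlt⟩
    have h6 := wnb_tri a c
    linarith

private lemma wnb_car (n : ℕ) (i : Fin 4) : √(sq (car ((n : ℤ) ^ 2) i)) = (n : ℝ) ^ 2 := by
  have h : sq (car ((n : ℤ) ^ 2) i) = ((n : ℝ) ^ 2) ^ 2 := by
    unfold sq car sgn dir
    fin_cases i <;> simp
  rw [h]
  exact Real.sqrt_sq (by positivity)

theorem wnb_thm (h1 : FSBStmt) : WNBStmt := by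
  intro ν M p hM hp
  have hpro : ∀ i : Fin 4, Fs M (pro ν p i) := h1.2.2.2.2.2.1 M ν p hM hp
  have hp0 : sh 0 p = p := by
    funext j k
    simp [sh]
  refine ⟨∑ j : Fin 2, ((1 + M) * (∑' a, ‖p j a‖) +
    (2 + M) * ∑ i : Fin 4, ∑' a, ‖pro ν p i j a‖), ?_, ?_⟩
  · apply Finset.sum_nonneg
    intro j _
    have e1 : 0 ≤ ∑' a, ‖p j a‖ := tsum_nonneg fun a => norm_nonneg _
    have e2 : 0 ≤ ∑ i : Fin 4, ∑' a, ‖pro ν p i j a‖ :=
      Finset.sum_nonneg fun i _ => tsum_nonneg fun a => norm_nonneg _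
    positivity
  · intro n hn θ hθ0 hθ1
    have hn1 : (1 : ℝ) ≤ n := by exact_mod_cast hn
    have hw0 : ∀ j : Fin 2, Summable (fun k => (1 + √(sq k)) * ‖p j k‖) ∧
        ∑' k, (1 + √(sq k)) * ‖p j k‖ ≤ (1 + M) * ∑' a, ‖p j a‖ := by
      intro j
      have := wnb_one h1 M hM 0 p hp j
      rw [hp0] at this
      refine ⟨this.1, this.2.trans_eq ?_⟩
      have hs0 : sq 0 = 0 := by simp [sq]
      rw [hs0, Real.sqrt_zero, add_zero]
    have hwi := fun (j : Fin 2) (i : Fin 4) =>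
      wnb_one h1 M hM (car ((n : ℤ) ^ 2) i) (pro ν p i) (hpro i) j
    have key : ∀ j : Fin 2, Summable (fun k => (1 + √(sq k)) * ‖apx ν p n θ j k‖) ∧
        ∑' k, (1 + √(sq k)) * ‖apx ν p n θ j k‖ ≤
          ((1 + M) * (∑' a, ‖p j a‖) + (2 + M) * ∑ i : Fin 4, ∑' a, ‖pro ν p i j a‖) *
            ((n : ℝ) ^ 5 * θ) := by
      intro j
      have hH : HasSum (fun k => θ ^ 2 * ((1 + √(sq k)) * ‖p j k‖) +
          ((n : ℝ) ^ 3 * θ) * ∑ i : Fin 4, (1 + √(sq k)) *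
            ‖sh (car ((n : ℤ) ^ 2) i) (pro ν p i) j k‖)
          (θ ^ 2 * (∑' k, (1 + √(sq k)) * ‖p j k‖) +
          ((n : ℝ) ^ 3 * θ) * ∑ i : Fin 4, ∑' k, (1 + √(sq k)) *
            ‖sh (car ((n : ℤ) ^ 2) i) (pro ν p i) j k‖) := by
        apply HasSum.add
        · exact (hw0 j).1.hasSum.mul_left _
        · apply HasSum.mul_left
          exact hasSum_sum fun i _ => (hwi j i).1.hasSum
      have hle : ∀ k, (1 + √(sq k)) * ‖apx ν p n θ j k‖ ≤
          θ ^ 2 * ((1 + √(sq k)) * ‖p j k‖) +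
          ((n : ℝ) ^ 3 * θ) * ∑ i : Fin 4, (1 + √(sq k)) *
            ‖sh (car ((n : ℤ) ^ 2) i) (pro ν p i) j k‖ := by
        intro k
        have hw : 0 ≤ 1 + √(sq k) := by positivity
        have e3 : ‖apx ν p n θ j k‖ ≤ θ ^ 2 * ‖p j k‖ + ((n : ℝ) ^ 3 * θ) *
            ∑ i : Fin 4, ‖sh (car ((n : ℤ) ^ 2) i) (pro ν p i) j k‖ := by
          unfold apx osc
          refine (norm_add_le _ _).trans ?_
          apply add_le_add
          · rw [norm_mul, Complex.norm_real, Real.norm_of_nonneg (by positivity)]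
          · rw [norm_mul, Complex.norm_real, Real.norm_of_nonneg (by positivity)]
            apply mul_le_mul_of_nonneg_left (norm_sum_le _ _) (by positivity)
        calc (1 + √(sq k)) * ‖apx ν p n θ j k‖ ≤ (1 + √(sq k)) * (θ ^ 2 * ‖p j k‖ +
            ((n : ℝ) ^ 3 * θ) *
            ∑ i : Fin 4, ‖sh (car ((n : ℤ) ^ 2) i) (pro ν p i) j k‖) :=
              mul_le_mul_of_nonneg_left e3 hw
          _ = _ := by
            rw [← Finset.mul_sum]
            ring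
      have hS : Summable (fun k => (1 + √(sq k)) * ‖apx ν p n θ j k‖) := by
        apply Summable.of_nonneg_of_le _ hle hH.summable
        intro k
        positivity
      refine ⟨hS, ?_⟩
      have e4 := hS.tsum_le_tsum hle hH.summable
      rw [hH.tsum_eq] at e4
      refine e4.trans ?_
      have e5 := (hw0 j).2
      have hP : 0 ≤ ∑' a, ‖p j a‖ := tsum_nonneg fun a => norm_nonneg _
      have e6 : θ ^ 2 * (∑' k, (1 + √(sq k)) * ‖p j k‖) ≤
          ((1 + M) * (∑' a, ‖p j a‖)) * ((n : ℝ) ^ 5 * θ) := by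
        have f1 : θ ^ 2 ≤ (n : ℝ) ^ 5 * θ := by
          have f2 : θ ^ 2 ≤ θ := by nlinarith
          have f3 : (1 : ℝ) ≤ (n : ℝ) ^ 5 := one_le_pow₀ hn1
          nlinarith
        calc θ ^ 2 * (∑' k, (1 + √(sq k)) * ‖p j k‖) ≤ θ ^ 2 * ((1 + M) * ∑' a, ‖p j a‖) :=
              mul_le_mul_of_nonneg_left e5 (by positivity)
          _ ≤ ((n : ℝ) ^ 5 * θ) * ((1 + M) * ∑' a, ‖p j a‖) :=
              mul_le_mul_of_nonneg_right f1 (by positivity)
          _ = _ := by ring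
      have e7 : ∀ i : Fin 4, ∑' k, (1 + √(sq k)) *
            ‖sh (car ((n : ℤ) ^ 2) i) (pro ν p i) j k‖ ≤
            ((2 + M) * (n : ℝ) ^ 2) * ∑' a, ‖pro ν p i j a‖ := by
        intro i
        refine (hwi j i).2.trans ?_
        apply mul_le_mul_of_nonneg_right _ (tsum_nonneg fun a => norm_nonneg _)
        rw [wnb_car]
        have f4 : (1 : ℝ) ≤ (n : ℝ) ^ 2 := one_le_pow₀ hn1
        nlinarith
      have e8 : ((n : ℝ) ^ 3 * θ) * ∑ i : Fin 4, ∑' k, (1 + √(sq k)) *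
            ‖sh (car ((n : ℤ) ^ 2) i) (pro ν p i) j k‖ ≤
          ((2 + M) * ∑ i : Fin 4, ∑' a, ‖pro ν p i j a‖) * ((n : ℝ) ^ 5 * θ) := by
        calc ((n : ℝ) ^ 3 * θ) * ∑ i : Fin 4, ∑' k, (1 + √(sq k)) *
            ‖sh (car ((n : ℤ) ^ 2) i) (pro ν p i) j k‖ ≤ ((n : ℝ) ^ 3 * θ) *
              ∑ i : Fin 4, ((2 + M) * (n : ℝ) ^ 2) * ∑' a, ‖pro ν p i j a‖ := by
              apply mul_le_mul_of_nonneg_left _ (by positivity)
              exact Finset.sum_le_sum fun i _ => e7 i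
          _ = _ := by
            rw [← Finset.mul_sum]
            ring
      calc _ ≤ ((1 + M) * (∑' a, ‖p j a‖)) * ((n : ℝ) ^ 5 * θ) +
            ((2 + M) * ∑ i : Fin 4, ∑' a, ‖pro ν p i j a‖) * ((n : ℝ) ^ 5 * θ) :=
            add_le_add e6 e8
        _ = _ := by ring
    refine ⟨fun j => (key j).1, ?_⟩
    unfold wn
    calc ∑ j : Fin 2, ∑' k, (1 + √(sq k)) * ‖apx ν p n θ j k‖ ≤
        ∑ j : Fin 2, ((1 + M) * (∑' a, ‖p j a‖) + (2 + M) * ∑ i : Fin 4,
          ∑' a, ‖pro ν p i j a‖) * ((n : ℝ) ^ 5 * θ) :=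
          Finset.sum_le_sum fun j _ => (key j).2
      _ = _ := by
        rw [← Finset.sum_mul]
        ring

end HB
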